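import Pool.Agent.Lib.MP_e3ee1c_co.ShiftChain

/-!
# Shift-chains: Property B holds exactly from uniformity four on

Every (finite or infinite) set of pairwise comparable strictly increasing quadruples of natural
numbers has a 2-colouring without monochromatic quadruple.  Hence every `k`-uniform shift-chain,
`k ≥ 4`, has Property B, and any four positions can be prescribed in which the edges are to be
non-monochromatic.  For `k = 1, 2, 3` there are shift-chains without Property B.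
-/

set_option autoImplicit false

namespace Pool.Agent.Results.MP_e3ee1c_co.FourSuffices

open Pool.Agent.ShiftChain

/-- For `k`-sets `A`, `B`: the `i`-th smallest element of `A` is at most the `i`-th smallest
element of `B`, for every `i`. -/
def ShiftLe (k : ℕ) (A B : Finset ℕ) : Prop :=
  ∀ (hA : A.card = k) (hB : B.card = k) (i : Fin k), A.orderEmbOfFin hA i ≤ B.orderEmbOfFin hB i

/-- `H` is a `k`-uniform shift-chain (on the natural numbers, possibly infinite). -/
structure IsShiftChain (k : ℕ) (H : Set (Finset ℕ)) : Prop where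
  card : ∀ A ∈ H, A.card = k
  comp : ∀ A ∈ H, ∀ B ∈ H, ShiftLe k A B ∨ ShiftLe k B A

/-- `H` has a 2-colouring without monochromatic edge. -/
def PropertyB (H : Set (Finset ℕ)) : Prop :=
  ∃ c : ℕ → Bool, ∀ A ∈ H, ∃ x ∈ A, ∃ y ∈ A, c x ≠ c y

/-! ### quadruples -/

/-- the quadruple as a configuration of `ShiftChain` -/
private def toCfg (a : Fin 4 → ℕ) : Cfg := (a 0, a 1, a 2, a 3)

private lemma finite_quad (F : Finset (Fin 4 → ℕ)) (hm : ∀ a ∈ F, StrictMono a)
    (hc : ∀ a ∈ F, ∀ b ∈ F, a ≤ b ∨ b ≤ a) :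
    ∃ c : ℕ → Bool, ∀ a ∈ F, ∃ i j, c (a i) ≠ c (a j) := by
  classical
  obtain ⟨c, hcc⟩ := chain_colouring (F.image toCfg) (by
      intro p hp
      obtain ⟨a, ha, rfl⟩ := Finset.mem_image.mp hp
      exact ⟨hm a ha (by decide), hm a ha (by decide), hm a ha (by decide)⟩) (by
      intro p hp q hq
      obtain ⟨a, ha, rfl⟩ := Finset.mem_image.mp hp
      obtain ⟨b, hb, rfl⟩ := Finset.mem_image.mp hq
      rcases hc a ha b hb with h | h
      · left; exact ⟨h 0, h 1, h 2, h 3⟩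
      · right; exact ⟨h 0, h 1, h 2, h 3⟩)
  refine ⟨c, fun a ha => ?_⟩
  have hg := hcc (toCfg a) (Finset.mem_image_of_mem _ ha)
  by_contra hcon
  push Not at hcon
  exact hg ⟨hcon 0 1, hcon 0 2, hcon 0 3⟩

private lemma quad (F : Set (Fin 4 → ℕ)) (hm : ∀ a ∈ F, StrictMono a)
    (hc : ∀ a ∈ F, ∀ b ∈ F, a ≤ b ∨ b ≤ a) :
    ∃ c : ℕ → Bool, ∀ a ∈ F, ∃ i j, c (a i) ≠ c (a j) := by
  classical
  have hclosed : ∀ a : F, IsClosed {c : ℕ → Bool | ∃ i j, c (a.1 i) ≠ c (a.1 j)} := by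
    intro a
    have h1 : {c : ℕ → Bool | ∃ i j, c (a.1 i) ≠ c (a.1 j)} =
        ⋃ i : Fin 4, ⋃ j : Fin 4, {c : ℕ → Bool | c (a.1 i) ≠ c (a.1 j)} := by
      ext c; simp
    rw [h1]
    refine isClosed_iUnion_of_finite fun i => isClosed_iUnion_of_finite fun j => ?_
    have h2 : {c : ℕ → Bool | c (a.1 i) ≠ c (a.1 j)} =
        (fun c : ℕ → Bool => (c (a.1 i), c (a.1 j))) ⁻¹' {p : Bool × Bool | p.1 ≠ p.2} := rfl
    rw [h2]
    exact (isClosed_discrete _).preimage
      ((continuous_apply (a.1 i)).prodMk (continuous_apply (a.1 j)))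
  have hne := IsCompact.inter_iInter_nonempty (isCompact_univ (X := ℕ → Bool))
    (fun a : F => {c : ℕ → Bool | ∃ i j, c (a.1 i) ≠ c (a.1 j)}) hclosed (by
      intro s
      obtain ⟨c, hcc⟩ := finite_quad (s.image Subtype.val)
        (by
          intro a ha
          obtain ⟨b, _, rfl⟩ := Finset.mem_image.mp ha
          exact hm _ b.2)
        (by
          intro a ha b hb
          obtain ⟨a', _, rfl⟩ := Finset.mem_image.mp ha
          obtain ⟨b', _, rfl⟩ := Finset.mem_image.mp hb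
          exact hc _ a'.2 _ b'.2)
      refine ⟨c, Set.mem_univ _, ?_⟩
      simp only [Set.mem_iInter]
      intro a ha
      exact hcc a.1 (Finset.mem_image_of_mem _ ha))
  obtain ⟨c, _, hcc⟩ := hne
  simp only [Set.mem_iInter] at hcc
  exact ⟨c, fun a ha => hcc ⟨a, ha⟩⟩

/-! ### the small cases -/

private lemma emb1 (a : ℕ) (h : ({a} : Finset ℕ).card = 1) (i : Fin 1) :
    ({a} : Finset ℕ).orderEmbOfFin h i = a := by
  have h1 := Finset.orderEmbOfFin_mem ({a} : Finset ℕ) h i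
  exact Finset.mem_singleton.1 h1

private lemma emb2 (a b : ℕ) (hab : a < b) (h : ({a, b} : Finset ℕ).card = 2) (i : Fin 2) :
    ({a, b} : Finset ℕ).orderEmbOfFin h i = ![a, b] i := by
  have h1 := Finset.orderEmbOfFin_unique (s := ({a, b} : Finset ℕ)) h (f := ![a, b])
    (by intro x; fin_cases x <;> simp)
    (by
      intro x y hxy
      fin_cases x <;> fin_cases y <;> simp_all)
  exact (congrFun h1 i).symm

private lemma emb3 (a b c : ℕ) (hab : a < b) (hbc : b < c) (h : ({a, b, c} : Finset ℕ).card = 3)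
    (i : Fin 3) : ({a, b, c} : Finset ℕ).orderEmbOfFin h i = ![a, b, c] i := by
  have h1 := Finset.orderEmbOfFin_unique (s := ({a, b, c} : Finset ℕ)) h (f := ![a, b, c])
    (by intro x; fin_cases x <;> simp)
    (by
      intro x y hxy
      fin_cases x <;> fin_cases y <;> simp_all <;> omega)
  exact (congrFun h1 i).symm

/-- Fulek's chain of triples -/
private def trip : List (ℕ × ℕ × ℕ) :=
  [(1,2,3), (1,2,4), (1,2,5), (1,3,5), (1,4,5), (2,4,5), (3,4,5), (3,4,6), (3,4,7), (3,5,7),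
   (3,6,7), (4,6,7), (5,6,7), (5,6,8), (5,6,9), (5,7,9), (5,8,9), (6,8,9), (7,8,9)]

private def H3 : Set (Finset ℕ) := {A | ∃ t ∈ trip, A = {t.1, t.2.1, t.2.2}}

private lemma trip_lt : ∀ t ∈ trip, t.1 < t.2.1 ∧ t.2.1 < t.2.2 := by decide

private lemma trip_comp : ∀ t ∈ trip, ∀ u ∈ trip,
    (t.1 ≤ u.1 ∧ t.2.1 ≤ u.2.1 ∧ t.2.2 ≤ u.2.2) ∨
    (u.1 ≤ t.1 ∧ u.2.1 ≤ t.2.1 ∧ u.2.2 ≤ t.2.2) := by decide

private lemma H3_chain : IsShiftChain 3 H3 := by
  refine ⟨?_, ?_⟩
  · rintro A ⟨t, ht, rfl⟩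
    have h := trip_lt t ht
    exact Finset.card_eq_three.2 ⟨t.1, t.2.1, t.2.2, by omega, by omega, by omega, rfl⟩
  · rintro A ⟨t, ht, rfl⟩ B ⟨u, hu, rfl⟩
    have h := trip_lt t ht
    have h' := trip_lt u hu
    rcases trip_comp t ht u hu with hc | hc
    · left
      intro hA hB i
      rw [emb3 _ _ _ h.1 h.2, emb3 _ _ _ h'.1 h'.2]
      fin_cases i
      · exact hc.1
      · exact hc.2.1
      · exact hc.2.2
    · right
      intro hA hB i
      rw [emb3 _ _ _ h.1 h.2, emb3 _ _ _ h'.1 h'.2]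
      fin_cases i
      · exact hc.1
      · exact hc.2.1
      · exact hc.2.2

private lemma bool9 : ∀ c1 c2 c3 c4 c5 c6 c7 c8 c9 : Bool,
    ((c1 == c2 && c2 == c3) ||
     (c1 == c2 && c2 == c4) ||
     (c1 == c2 && c2 == c5) ||
     (c1 == c3 && c3 == c5) ||
     (c1 == c4 && c4 == c5) ||
     (c2 == c4 && c4 == c5) ||
     (c3 == c4 && c4 == c5) ||
     (c3 == c4 && c4 == c6) ||
     (c3 == c4 && c4 == c7) ||
     (c3 == c5 && c5 == c7) ||
     (c3 == c6 && c6 == c7) ||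
     (c4 == c6 && c6 == c7) ||
     (c5 == c6 && c6 == c7) ||
     (c5 == c6 && c6 == c8) ||
     (c5 == c6 && c6 == c9) ||
     (c5 == c7 && c7 == c9) ||
     (c5 == c8 && c8 == c9) ||
     (c6 == c8 && c8 == c9) ||
     (c7 == c8 && c8 == c9)) = true := by
  decide +kernel

private lemma H3_not : ¬ PropertyB H3 := by
  rintro ⟨c, hc⟩
  have key : ∀ t ∈ trip, ¬ (c t.1 = c t.2.1 ∧ c t.2.1 = c t.2.2) := by
    rintro ⟨t1, t2, t3⟩ ht ⟨hh1, hh2⟩
    obtain ⟨x, hx, y, hy, hxy⟩ := hc _ ⟨_, ht, rfl⟩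
    simp only [Finset.mem_insert, Finset.mem_singleton] at hx hy hh1 hh2
    have e1 : c x = c t3 := by
      rcases hx with rfl | rfl | rfl
      · exact hh1.trans hh2
      · exact hh2
      · rfl
    have e2 : c y = c t3 := by
      rcases hy with rfl | rfl | rfl
      · exact hh1.trans hh2
      · exact hh2
      · rfl
    exact hxy (e1.trans e2.symm)
  have h := bool9 (c 1) (c 2) (c 3) (c 4) (c 5) (c 6) (c 7) (c 8) (c 9)
  simp only [Bool.or_eq_true, Bool.and_eq_true, beq_iff_eq] at h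
  rcases h with (((((((((((((((((h | h) | h) | h) | h) | h) | h) | h) | h) | h) | h) | h) | h) | h) | h) | h) | h) | h) | h
  · exact key (1, 2, 3) (by decide) h
  · exact key (1, 2, 4) (by decide) h
  · exact key (1, 2, 5) (by decide) h
  · exact key (1, 3, 5) (by decide) h
  · exact key (1, 4, 5) (by decide) h
  · exact key (2, 4, 5) (by decide) h
  · exact key (3, 4, 5) (by decide) h
  · exact key (3, 4, 6) (by decide) h
  · exact key (3, 4, 7) (by decide) h
  · exact key (3, 5, 7) (by decide) h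
  · exact key (3, 6, 7) (by decide) h
  · exact key (4, 6, 7) (by decide) h
  · exact key (5, 6, 7) (by decide) h
  · exact key (5, 6, 8) (by decide) h
  · exact key (5, 6, 9) (by decide) h
  · exact key (5, 7, 9) (by decide) h
  · exact key (5, 8, 9) (by decide) h
  · exact key (6, 8, 9) (by decide) h
  · exact key (7, 8, 9) (by decide) h

private lemma pair_ne (c : ℕ → Bool) (a b : ℕ)
    (h : ∃ x ∈ ({a, b} : Finset ℕ), ∃ y ∈ ({a, b} : Finset ℕ), c x ≠ c y) : c a ≠ c b := by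
  obtain ⟨x, hx, y, hy, hxy⟩ := h
  simp only [Finset.mem_insert, Finset.mem_singleton] at hx hy
  rcases hx with rfl | rfl <;> rcases hy with rfl | rfl
  · exact absurd rfl hxy
  · exact hxy
  · exact hxy.symm
  · exact absurd rfl hxy

private lemma two_not : IsShiftChain 2 ({{1, 2}, {1, 3}, {2, 3}} : Set (Finset ℕ)) ∧
    ¬ PropertyB ({{1, 2}, {1, 3}, {2, 3}} : Set (Finset ℕ)) := by
  refine ⟨⟨?_, ?_⟩, ?_⟩
  · rintro A (rfl | rfl | rfl) <;> rfl
  · have e12 := emb2 1 2 (by norm_num)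
    have e13 := emb2 1 3 (by norm_num)
    have e23 := emb2 2 3 (by norm_num)
    rintro A (rfl | rfl | rfl) B (rfl | rfl | rfl)
    all_goals
      first
      | (left; intro hA hB i; simp only [e12, e13, e23]; fin_cases i <;> decide)
      | (right; intro hA hB i; simp only [e12, e13, e23]; fin_cases i <;> decide)
  · rintro ⟨c, hc⟩
    have k1 : c 1 ≠ c 2 := pair_ne c 1 2 (hc {1, 2} (by simp))
    have k2 : c 1 ≠ c 3 := pair_ne c 1 3 (hc {1, 3} (by simp))
    have k3 : c 2 ≠ c 3 := pair_ne c 2 3 (hc {2, 3} (by simp))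
    revert k1 k2 k3
    generalize c 1 = a
    generalize c 2 = b
    generalize c 3 = d
    revert a b d
    decide

private lemma one_not : IsShiftChain 1 ({{1}} : Set (Finset ℕ)) ∧
    ¬ PropertyB ({{1}} : Set (Finset ℕ)) := by
  refine ⟨⟨?_, ?_⟩, ?_⟩
  · rintro A rfl; rfl
  · rintro A rfl B rfl
    left
    intro hA hB i
    exact le_rfl
  · rintro ⟨c, hc⟩
    obtain ⟨x, hx, y, hy, hxy⟩ := hc {1} rfl
    simp only [Finset.mem_singleton] at hx hy
    subst hx hy
    exact hxy rfl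

/-- Main theorem. -/
theorem result :
    -- every set of pairwise comparable increasing quadruples has a good colouring
    (∀ F : Set (Fin 4 → ℕ), (∀ a ∈ F, StrictMono a) → (∀ a ∈ F, ∀ b ∈ F, a ≤ b ∨ b ≤ a) →
      ∃ c : ℕ → Bool, ∀ a ∈ F, ∃ i j, c (a i) ≠ c (a j)) ∧
    -- shift-chains: four prescribed positions suffice
    (∀ (k : ℕ) (e : Fin 4 ↪o Fin k) (H : Set (Finset ℕ)), IsShiftChain k H →
      ∃ c : ℕ → Bool, ∀ A ∈ H, ∀ hA : A.card = k,
        ∃ i j, c (A.orderEmbOfFin hA (e i)) ≠ c (A.orderEmbOfFin hA (e j))) ∧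
    -- every k-uniform shift-chain with k ≥ 4 has Property B
    (∀ k : ℕ, 4 ≤ k → ∀ H : Set (Finset ℕ), IsShiftChain k H → PropertyB H) ∧
    -- this fails for k = 1, 2, 3, already on {1, ..., 9}
    (∀ k : ℕ, 1 ≤ k → k < 4 → ∃ H : Set (Finset ℕ), (∀ A ∈ H, ∀ x ∈ A, 1 ≤ x ∧ x ≤ 9) ∧
      IsShiftChain k H ∧ ¬ PropertyB H) := by
  classical
  have hpos : ∀ (k : ℕ) (e : Fin 4 ↪o Fin k) (H : Set (Finset ℕ)), IsShiftChain k H →
      ∃ c : ℕ → Bool, ∀ A ∈ H, ∀ hA : A.card = k,
        ∃ i j, c (A.orderEmbOfFin hA (e i)) ≠ c (A.orderEmbOfFin hA (e j)) := by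
    intro k e H hH
    obtain ⟨c, hc⟩ := quad
      {a : Fin 4 → ℕ | ∃ A ∈ H, ∃ hA : A.card = k, a = fun i => A.orderEmbOfFin hA (e i)}
      (by
        rintro a ⟨A, _, hA, rfl⟩
        intro i j hij
        exact (A.orderEmbOfFin hA).strictMono (e.strictMono hij))
      (by
        rintro a ⟨A, hAH, hA, rfl⟩ b ⟨B, hBH, hB, rfl⟩
        rcases hH.comp A hAH B hBH with h | h
        · left; intro i; exact h hA hB (e i)
        · right; intro i; exact h hB hA (e i))
    exact ⟨c, fun A hAH hA => hc _ ⟨A, hAH, hA, rfl⟩⟩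
  refine ⟨quad, hpos, ?_, ?_⟩
  · intro k h4 H hH
    obtain ⟨c, hc⟩ := hpos k (Fin.castLEOrderEmb h4) H hH
    refine ⟨c, fun A hA => ?_⟩
    obtain ⟨i, j, hij⟩ := hc A hA (hH.card A hA)
    exact ⟨_, Finset.orderEmbOfFin_mem A _ _, _, Finset.orderEmbOfFin_mem A _ _, hij⟩
  · intro k hk hlt
    have h3 : k = 1 ∨ k = 2 ∨ k = 3 := by omega
    rcases h3 with rfl | rfl | rfl
    · refine ⟨_, ?_, one_not⟩
      rintro A rfl x hx
      simp only [Finset.mem_singleton] at hx
      omega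
    · refine ⟨_, ?_, two_not⟩
      rintro A (rfl | rfl | rfl) x hx <;>
      · simp only [Finset.mem_insert, Finset.mem_singleton] at hx
        omega
    · refine ⟨H3, ?_, H3_chain, H3_not⟩
      rintro A ⟨t, ht, rfl⟩ x hx
      have hb : ∀ t ∈ trip, 1 ≤ t.1 ∧ t.2.2 ≤ 9 := by decide
      have h1 := hb t ht
      have h2 := trip_lt t ht
      simp only [Finset.mem_insert, Finset.mem_singleton] at hx
      omega

end Pool.Agent.Results.MP_e3ee1c_co.FourSuffices
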